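import Mathlib
import Pool.Agent.H26.Ultra
import Pool.Agent.H26.Kunen

set_option autoImplicit false

open Set Topology Filter

namespace Pool.Agent.Results.MP_6ed562_lc.NotIso

open Pool.Agent.H26.Ultra

/-- `X` is `u`-compact: every sequence has a `u`-limit in `X`. -/
def UCompact (u : Ultrafilter ℕ) (X : Type) [TopologicalSpace X] : Prop :=
  ∀ f : ℕ → X, ∃ x, Tendsto f u (𝓝 x)

/-- `βω` with the Rudin–Keisler preorder. -/
def RK : Type := Ultrafilter ℕ

/-- `βω` with the Comfort preorder. -/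
def Comfort : Type := Ultrafilter ℕ

instance : Preorder RK where
  le u v := ∃ f : ℕ → ℕ, Ultrafilter.map f v = u
  le_refl _ := ⟨id, rfl⟩
  le_trans _ _ _ := fun ⟨f, hf⟩ ⟨g, hg⟩ => ⟨f ∘ g, by rw [← hf, ← hg]; rfl⟩

instance : Preorder Comfort where
  le u v := ∀ (X : Type) [TopologicalSpace X] [T35Space X], UCompact v X → UCompact u X
  le_refl _ _ _ _ h := h
  le_trans _ _ _ h1 h2 X _ _ h := h1 X (h2 X h)

lemma c_lub (u v : Comfort) : ∃ w, u ≤ w ∧ v ≤ w ∧ ∀ z, u ≤ z → v ≤ z → w ≤ z := by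
  have key : ∀ (a w : U) (g : ℕ → ℕ), w.map g = a → (show Comfort from a) ≤ (show Comfort from w) :=
    fun a w g hg X _ _ hX f => by
      obtain ⟨x, hx⟩ := hX (f ∘ g)
      exact ⟨x, hg ▸ hx⟩
  refine ⟨tens u v, key _ _ _ (tens_fst u v), key _ _ _ (tens_snd u v), fun z h1 h2 X _ _ hX f => ?_⟩
  choose y hy using fun n => h2 X hX (f ∘ Nat.pair n)
  obtain ⟨x, hx⟩ := h1 X hX y
  exact ⟨x, tendsto_nhds.2 fun V hV hxV => mem_bind.2
    (sup (hx (hV.mem_nhds hxV)) fun n hn => hy n (hV.mem_nhds hn))⟩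

lemma rk_nolub : ∃ u v : RK, ¬ ∃ w, u ≤ w ∧ v ≤ w ∧ ∀ z, u ≤ z → v ≤ z → w ≤ z := by
  obtain ⟨u, v, hu, -, hw, h1, h2⟩ := Pool.Agent.H26.Kunen.exists_weakP
  refine ⟨u, v, ?_⟩
  rintro ⟨w, ⟨p, hp⟩, ⟨q, hq⟩, h⟩
  obtain ⟨f, hf⟩ := h (tens u v) ⟨_, tens_fst u v⟩ ⟨_, tens_snd u v⟩
  obtain ⟨g, hg⟩ := h (tens v u) ⟨_, tens_snd v u⟩ ⟨_, tens_fst v u⟩
  let x : ℕ → U := fun n => v.map (f ∘ Nat.pair n)
  let y : ℕ → U := fun m => u.map (g ∘ Nat.pair m)
  have hx : u.bind x = w := hf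
  have hy : v.bind y = w := hg
  have e1 : u.bind (fun n => (x n).map p) = u := by rw [← H26.Ultra.map_bind, hx, hp]
  have e2 : v.bind (fun m => (y m).map p) = u := by rw [← H26.Ultra.map_bind, hy, hp]
  obtain ⟨c, hc⟩ := (wp_cases hw e1).resolve_right fun h => by
    obtain ⟨n, hn⟩ := u.nonempty_of_mem h
    exact h2 _ hn
  have hA : {n | (x n).map p = pure n} ∈ u :=
    sup (inter hc (fix_of_map ((bind_pure' hc).symm.trans e1))) fun n hn =>
      hn.1.trans (congrArg pure hn.2)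
  have hB := (wp_cases hw e2).resolve_left fun ⟨c, hc⟩ => h2 c ((bind_pure' hc).symm.trans e2)
  rcases frolik (bind_mem_closure (f := x) hA) (hx ▸ hy ▸ bind_mem_closure (f := y) hB) with
    ⟨n, hn, h⟩ | ⟨m, hm, h⟩
  · exact hu n ((map_of_closure h (by rintro _ ⟨m, hm, rfl⟩; exact hm)).symm.trans hn)
  · have : u.bind x = y m := Ultrafilter.eq_of_le fun S hS => by_contra fun hn => by
      have h3 : p ⁻¹' {n | S ∈ x n}ᶜ ∈ y m := by
        rw [← Ultrafilter.mem_map, hm]; exact compl hn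
      obtain ⟨_, ⟨n, hn, rfl⟩, h4⟩ := mem_closure.1 h _ (inter hS h3)
      have h5 : {n | S ∈ x n}ᶜ ∈ (x n).map p := sup (u := x n) h4 inter_subset_right
      rw [hn] at h5
      exact h5 (sup h4 inter_subset_left)
    exact h1 (q ∘ g ∘ Nat.pair m) (by rw [← hq, ← hx, this]; rfl)

theorem result :
    IsEmpty (Antisymmetrization RK (· ≤ ·) ≃o Antisymmetrization Comfort (· ≤ ·)) := by
  refine ⟨fun e => ?_⟩
  obtain ⟨u, v, h⟩ := rk_nolub
  obtain ⟨a, ha⟩ := Quotient.exists_rep (e (toAntisymmetrization _ u))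
  obtain ⟨b, hb⟩ := Quotient.exists_rep (e (toAntisymmetrization _ v))
  obtain ⟨c, h1, h2, h3⟩ := c_lub a b
  obtain ⟨w, hw⟩ := Quotient.exists_rep (e.symm (toAntisymmetrization _ c))
  change toAntisymmetrization _ a = _ at ha
  change toAntisymmetrization _ b = _ at hb
  change toAntisymmetrization _ w = _ at hw
  refine h ⟨w, ?_, ?_, fun z hu hv => ?_⟩
  · rw [← toAntisymmetrization_le_toAntisymmetrization_iff, hw, e.le_symm_apply, ← ha]; exact h1
  · rw [← toAntisymmetrization_le_toAntisymmetrization_iff, hw, e.le_symm_apply, ← hb]; exact h2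
  · obtain ⟨d, hd⟩ := Quotient.exists_rep (e (toAntisymmetrization _ z))
    change toAntisymmetrization _ d = _ at hd
    rw [← toAntisymmetrization_le_toAntisymmetrization_iff, hw, e.symm_apply_le, ← hd]
    refine h3 d ?_ ?_
    · rw [← toAntisymmetrization_le_toAntisymmetrization_iff, ha, hd, e.le_iff_le]; exact hu
    · rw [← toAntisymmetrization_le_toAntisymmetrization_iff, hb, hd, e.le_iff_le]; exact hv

end Pool.Agent.Results.MP_6ed562_lc.NotIso
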